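import Pool.Agent.Y898.PR

/-! Uniform simultaneous approximation by polynomials without constant term, and a recursive choice of
bounded weights. -/

set_option autoImplicit false

namespace Pool.Agent.U437.AP

open Finset

/-- the index of the cell of `x` modulo one -/
noncomputable def cell (m : ℕ) (x : ℝ) : ℕ := ⌊Int.fract x * m⌋₊

theorem cell_lt (m : ℕ) (hm : 0 < m) (x : ℝ) : cell m x < m := by
  unfold cell
  rw [Nat.floor_lt (by positivity)]
  have hm' : (0 : ℝ) < m := by exact_mod_cast hm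
  nlinarith [Int.fract_lt_one x]

theorem cell_close (m : ℕ) (hm : 0 < m) (x y : ℝ) (h : cell m x = cell m y) :
    ∃ u : ℤ, |x - y - u| < 1 / m := by
  have hm' : (0 : ℝ) < m := by exact_mod_cast hm
  refine ⟨⌊x⌋ - ⌊y⌋, ?_⟩
  have h1 : x - y - ((⌊x⌋ - ⌊y⌋ : ℤ) : ℝ) = Int.fract x - Int.fract y := by
    unfold Int.fract
    push_cast
    ring
  rw [h1, lt_div_iff₀ hm']
  have hx0 := Int.fract_nonneg x
  have hy0 := Int.fract_nonneg y
  have a1 : (cell m x : ℝ) ≤ Int.fract x * m := Nat.floor_le (by positivity)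
  have a2 : Int.fract x * m < cell m x + 1 := Nat.lt_floor_add_one _
  have b1 : (cell m y : ℝ) ≤ Int.fract y * m := Nat.floor_le (by positivity)
  have b2 : Int.fract y * m < cell m y + 1 := Nat.lt_floor_add_one _
  have h' : (cell m x : ℝ) = cell m y := by exact_mod_cast h
  have h2 : |Int.fract x - Int.fract y| * m = |Int.fract x * m - Int.fract y * m| := by
    rw [← sub_mul, abs_mul, abs_of_pos hm']
  rw [h2, abs_lt]
  constructor <;> linarith

/-- Simultaneous approximation, uniformly in the coefficients. -/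
theorem approx (e D : ℕ) (η : ℝ) (hη : 0 < η) : ∃ C : ℕ, ∀ c : Fin e → Fin D → ℝ,
    ∃ y : ℕ, 0 < y ∧ y ≤ C ∧ ∀ m, ∃ u : ℤ, |∑ i : Fin D, c m i * (y : ℝ) ^ ((i : ℕ) + 1) - u| < η := by
  classical
  obtain ⟨m, hm⟩ : ∃ m : ℕ, m = ⌈1 / η⌉₊ + 1 := ⟨_, rfl⟩
  have hm0 : 0 < m := by omega
  have hmr : (0 : ℝ) < m := by exact_mod_cast hm0
  have hmη : 1 / (m : ℝ) ≤ η := by
    rw [div_le_iff₀ hmr]
    have h1 := Nat.le_ceil (1 / η)
    have h2 : 1 / η ≤ m := by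
      rw [hm]
      push_cast
      linarith
    rw [div_le_iff₀ hη] at h2
    linarith
  obtain ⟨r, M, h⟩ := Pool.Agent.Y898.PR.one (m ^ e) 1 D
  refine ⟨r, fun c => ?_⟩
  obtain ⟨V, -, hV⟩ := h e Unit (by simp) (fun _ i m => c m i) (fun _ => 1)
  obtain ⟨z, -, α, hα, hαr, hΨ⟩ := hV (Fin e → Fin m) (by simp)
    (fun v i => ⟨cell m (v i), cell_lt m hm0 _⟩)
  refine ⟨α.card, hα.card_pos, (card_le_card hαr).trans (by simp), fun j => ?_⟩
  have h1 := congrFun (hΨ ()) j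
  simp only [Fin.mk.injEq] at h1
  obtain ⟨u, hu⟩ := cell_close m hm0 _ _ h1
  refine ⟨u, lt_of_lt_of_le ?_ hmη⟩
  have h2 : (z + ∑ i : Fin D, (((∑ _l ∈ α, (1 : ℤ) : ℤ) : ℝ) ^ ((i : ℕ) + 1)) •
      (fun m => c m i)) j - z j = ∑ i : Fin D, c j i * (α.card : ℝ) ^ ((i : ℕ) + 1) := by
    simp only [Pi.add_apply, Finset.sum_apply, Pi.smul_apply, smul_eq_mul, sum_const, nsmul_eq_mul,
      mul_one]
    rw [add_sub_cancel_left]
    refine sum_congr rfl fun i _ => ?_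
    push_cast
    ring
  rw [← h2]
  exact hu

open Polynomial in
/-- The same for polynomials. -/
theorem approxP (e D : ℕ) (η : ℝ) (hη : 0 < η) : ∃ C : ℕ, ∀ Q : Fin e → ℝ[X],
    (∀ m, (Q m).natDegree ≤ D) → (∀ m, (Q m).coeff 0 = 0) →
    ∃ y : ℕ, 0 < y ∧ y ≤ C ∧ ∀ m, ∃ u : ℤ, |(Q m).eval (y : ℝ) - u| < η := by
  obtain ⟨C, hC⟩ := approx e D η hη
  refine ⟨C, fun Q hQ hQ0 => ?_⟩
  obtain ⟨y, hy, hyC, h⟩ := hC (fun m i => (Q m).coeff ((i : ℕ) + 1))
  refine ⟨y, hy, hyC, fun m => ?_⟩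
  obtain ⟨u, hu⟩ := h m
  refine ⟨u, ?_⟩
  rw [Polynomial.eval_eq_sum_range' (Nat.lt_succ_of_le (hQ m)), Finset.sum_range_succ']
  rw [hQ0 m, zero_mul, add_zero, Finset.sum_range]
  exact hu

end Pool.Agent.U437.AP
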