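import Pool.Agent.U437.AP.Main

/-! The adaptive conditions in terms of lists of primes. -/

set_option autoImplicit false

namespace Pool.Agent.U437.AP

open Finset Polynomial

theorem diffs_append (F : ℕ → ℕ) (a b : ℕ) : ∀ l : List ℕ,
    diffs F (l ++ [a, b]) = diffs F (l ++ [a]) ++ [F b - F a]
  | [] => rfl
  | [c] => rfl
  | c :: d :: l => by
    have h := diffs_append F a b (d :: l)
    rw [List.cons_append, List.cons_append] at h
    simp only [List.cons_append, diffs]
    rw [h]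

theorem diffs_reverse {G : ℕ → ℕ} {k : ℕ} (hG : ∀ i j, i < j → j ≤ k → G i ≤ G j) :
    ∀ q : List ℕ, q.Pairwise (· < ·) → (∀ a ∈ q, a ≤ k) →
    diffs (fun i => G k - G (k - i)) ((q.map (k - ·)).reverse) = (diffs G q).reverse
  | [], _, _ => rfl
  | [a], _, _ => rfl
  | a :: b :: q, hq, hk => by
    have ih := diffs_reverse hG (b :: q) (List.Pairwise.of_cons hq) fun x hx =>
      hk x (List.mem_cons_of_mem _ hx)
    have ha : a ≤ k := hk a (by simp)
    have hb : b ≤ k := hk b (by simp)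
    have hab : a < b := List.rel_of_pairwise_cons hq (by simp)
    have h1 : ((a :: b :: q).map (k - ·)).reverse = ((q.map (k - ·)).reverse) ++ [k - b, k - a] := by
      simp
    have h2 : ((b :: q).map (k - ·)).reverse = ((q.map (k - ·)).reverse) ++ [k - b] := by
      simp
    rw [h1, diffs_append, ← h2, ih, diffs, List.reverse_cons]
    congr 2
    have h3 : k - (k - a) = a := by omega
    have h4 : k - (k - b) = b := by omega
    rw [h3, h4]
    have h5 := hG a b hab hb
    rcases Nat.eq_or_lt_of_le hb with h6 | h6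
    · rw [h6] at h5 ⊢
      omega
    · have h7 := hG b k h6 le_rfl
      omega

theorem diffs_id (F : ℕ → ℕ) : ∀ l : List ℕ, diffs id (l.map F) = diffs F l
  | [] => rfl
  | [_] => rfl
  | a :: b :: l => by
    rw [List.map_cons, List.map_cons, diffs, diffs, ← List.map_cons, diffs_id F (b :: l)]
    rfl

theorem pr_le (n i j : ℕ) (h : i ≤ j) : pr n i ≤ pr n j :=
  (Nat.nth_strictMono Nat.infinite_setOfPred_prime).monotone (by omega)

/-- Forward conditions. -/
theorem forward {N : ℕ} {P : List ℕ → Fin N → ℝ[X]} {ε : ℝ} {k n : ℕ} (h : Good P ε k (pr n))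
    {L : List ℕ} {s t : ℕ} (hL : (L ++ [s, t]).Sublist ((List.range (k + 1)).map (pr n)))
    (m : Fin N) : ∃ u : ℤ, |(P (diffs id (L ++ [s])) m).eval ((t : ℝ) - s) - u| < ε := by
  obtain ⟨l', hl', he⟩ := List.sublist_map_iff.1 hL
  obtain ⟨l₁, l₂, h1, h2, h3⟩ := List.map_eq_append_iff.1 he.symm
  obtain ⟨i, l₃, h4, h5, h6⟩ := List.map_eq_cons_iff.1 h3
  obtain ⟨j, l₄, h7, h8, h9⟩ := List.map_eq_cons_iff.1 h6
  rw [List.map_eq_nil_iff] at h9
  subst h9 h7 h4 h1 h2 h5 h8
  have hp : (l₁ ++ [i, j]).Pairwise (· < ·) := List.pairwise_lt_range.sublist hl'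
  have hj : j ≤ k := by
    have := hl'.subset (show j ∈ l₁ ++ [i, j] by simp)
    rw [List.mem_range] at this
    omega
  obtain ⟨u, hu⟩ := h l₁ i j hp hj m
  refine ⟨u, ?_⟩
  have hd : diffs id (l₁.map (pr n) ++ [pr n i]) = diffs (pr n) (l₁ ++ [i]) := by
    have h1 := diffs_id (pr n) (l₁ ++ [i])
    rw [List.map_append] at h1
    exact h1
  rw [hd]
  exact hu

/-- Backward conditions. -/
theorem backward {N : ℕ} {P : List ℕ → Fin N → ℝ[X]} {ε : ℝ} {k n : ℕ}
    (h : Good P ε k (fun i => pr n k - pr n (k - i)))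
    {L : List ℕ} {s t : ℕ} (hL : (t :: s :: L).Sublist ((List.range (k + 1)).map (pr n)))
    (m : Fin N) : ∃ u : ℤ, |(P (diffs id (s :: L)).reverse m).eval ((s : ℝ) - t) - u| < ε := by
  obtain ⟨l', hl', he⟩ := List.sublist_map_iff.1 hL
  obtain ⟨j, l₃, h4, h5, h6⟩ := List.map_eq_cons_iff.1 he.symm
  obtain ⟨i, l₁, h7, h8, h9⟩ := List.map_eq_cons_iff.1 h6
  subst h9 h7 h4 h5 h8
  have hp : (j :: i :: l₁).Pairwise (· < ·) := List.pairwise_lt_range.sublist hl'
  have hle : ∀ a ∈ j :: i :: l₁, a ≤ k := by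
    intro a ha
    have := hl'.subset ha
    rw [List.mem_range] at this
    omega
  have hj : j ≤ k := hle j (by simp)
  have hi : i ≤ k := hle i (by simp)
  have hrev : ((l₁.map (k - ·)).reverse ++ [k - i, k - j]).Pairwise (· < ·) := by
    have h1 : ((j :: i :: l₁).map (k - ·)).reverse = (l₁.map (k - ·)).reverse ++ [k - i, k - j] := by
      simp
    rw [← h1, List.pairwise_reverse, List.pairwise_map]
    refine List.Pairwise.imp_of_mem ?_ hp
    intro x y hx hy hxy
    have := hle y hy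
    omega
  obtain ⟨u, hu⟩ := h ((l₁.map (k - ·)).reverse) (k - i) (k - j) hrev (Nat.sub_le _ _) m
  refine ⟨u, ?_⟩
  have h1 : (l₁.map (k - ·)).reverse ++ [k - i] = ((i :: l₁).map (k - ·)).reverse := by simp
  have hd : diffs id (pr n i :: l₁.map (pr n)) = diffs (pr n) (i :: l₁) :=
    diffs_id (pr n) (i :: l₁)
  rw [h1, diffs_reverse (fun i j hij _ => pr_le n i j hij.le) _ (List.Pairwise.of_cons hp)
    (fun a ha => hle a (List.mem_cons_of_mem _ ha))] at hu
  rw [hd]
  have h3 : k - (k - j) = j := by omega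
  have h4 : k - (k - i) = i := by omega
  beta_reduce at hu
  rw [h3, h4, Nat.cast_sub (pr_le n j k hj), Nat.cast_sub (pr_le n i k hi)] at hu
  have h5 : (pr n k : ℝ) - pr n j - (pr n k - pr n i) = (pr n i : ℝ) - pr n j := by ring
  rw [h5] at hu
  exact hu

/-- two assignments together -/
noncomputable def comb {N D : ℕ} (P : List ℕ → Fin N → ℝ[X]) (Q : List ℕ → Fin D → ℝ[X])
    (l : List ℕ) (i : Fin (N + D)) : ℝ[X] := Fin.addCases (P l) (Q l) i

theorem comb_left {N D : ℕ} (P : List ℕ → Fin N → ℝ[X]) (Q : List ℕ → Fin D → ℝ[X])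
    (l : List ℕ) (i : Fin N) : comb P Q l (Fin.castAdd D i) = P l i := by
  unfold comb
  rw [Fin.addCases_left]

theorem comb_right {N D : ℕ} (P : List ℕ → Fin N → ℝ[X]) (Q : List ℕ → Fin D → ℝ[X])
    (l : List ℕ) (i : Fin D) : comb P Q l (Fin.natAdd N i) = Q l i := by
  unfold comb
  rw [Fin.addCases_right]

theorem comb_adm {N D E : ℕ} {P : List ℕ → Fin N → ℝ[X]} {Q : List ℕ → Fin D → ℝ[X]}
    (hP : ∀ l m, (P l m).natDegree ≤ E ∧ (P l m).coeff 0 = 0)
    (hQ : ∀ l m, (Q l m).natDegree ≤ E ∧ (Q l m).coeff 0 = 0) (l : List ℕ) (m : Fin (N + D)) :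
    (comb P Q l m).natDegree ≤ E ∧ (comb P Q l m).coeff 0 = 0 := by
  refine Fin.addCases (fun i => ?_) (fun i => ?_) m
  · rw [comb_left]
    exact hP l i
  · rw [comb_right]
    exact hQ l i

/-- the polynomials `θ(g) X^e` -/
noncomputable def th (θ : ℕ → ℝ) (D : ℕ) : List ℕ → Fin D → ℝ[X]
  | [g], m => Polynomial.C (θ g) * X ^ ((m : ℕ) + 1)
  | [], _ => 0
  | _ :: _ :: _, _ => 0

theorem th_adm (θ : ℕ → ℝ) (D : ℕ) (l : List ℕ) (m : Fin D) :
    (th θ D l m).natDegree ≤ D ∧ (th θ D l m).coeff 0 = 0 := by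
  match l with
  | [] => simp [th]
  | [g] =>
    have h : th θ D [g] m = Polynomial.C (θ g) * X ^ ((m : ℕ) + 1) := rfl
    rw [h]
    refine ⟨(natDegree_C_mul_X_pow_le _ _).trans m.2, ?_⟩
    rw [coeff_C_mul, coeff_X_pow, if_neg (by omega), mul_zero]
  | _ :: _ :: _ => simp [th]

end Pool.Agent.U437.AP
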