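import Pool.Agent.U437.AP.Weights
import Pool.Agent.U437.DC.Eng

/-! Adaptive polynomial conditions along consecutive primes. -/

set_option autoImplicit false

namespace Pool.Agent.U437.AP

open Finset Filter Polynomial
open Pool.Agent.H256R2.SC (ff)
open Pool.Agent.U437.DC (gap Cluster engineB sum_gap)

/-- the shifted sequence of primes -/
noncomputable def pr (n i : ℕ) : ℕ := Nat.nth Nat.Prime (n + i)

/-- All the polynomial conditions along the chains of indices up to `k`. -/
def Good {N : ℕ} (P : List ℕ → Fin N → ℝ[X]) (ε : ℝ) (k : ℕ) (F : ℕ → ℕ) : Prop :=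
  ∀ (l : List ℕ) (s t : ℕ), (l ++ [s, t]).Pairwise (· < ·) → t ≤ k → ∀ m, ∃ u : ℤ,
    |(P (diffs F (l ++ [s])) m).eval ((F t : ℝ) - F s) - u| < ε

theorem lt_of_blocks {k : ℕ} {a : ℕ → ℕ} (ha : ∀ i < k, a i < a (i + 1)) :
    ∀ i j, i < j → j ≤ k → a i < a j := by
  intro i j hij hj
  induction j, hij using Nat.le_induction with
  | base => exact ha i (by omega)
  | succ j hj' ih => exact (ih (by omega)).trans (ha j (by omega))

theorem block_sum {w : ℕ → ℕ} {a b : ℕ} (h : a ≤ b) : W w a + ∑ j ∈ Ico a b, w j = W w b := by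
  unfold W
  rw [range_eq_Ico, range_eq_Ico]
  exact sum_Ico_consecutive _ (Nat.zero_le _) h

/-- differences of primes and block sums -/
theorem pr_sub {k n B : ℕ} {a w : ℕ → ℕ} (ha : ∀ i < k, a i < a (i + 1))
    (hg : ∀ i < k, gap (n + i) = B * ∑ j ∈ Ico (a i) (a (i + 1)), w j) :
    ∀ i j, i ≤ j → j ≤ k → pr n j = pr n i + B * (∑ t ∈ Ico (a i) (a j), w t) := by
  intro i j hij hj
  induction j, hij using Nat.le_induction with
  | base => simp
  | succ j hij' ih =>
    have h1 := ih (by omega)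
    have h2 : pr n (j + 1) = pr n j + gap (n + j) := by
      unfold pr gap
      have := (Pool.Agent.U437.DC.nth_lt (n + j)).le
      have h3 : n + (j + 1) = n + j + 1 := by ring
      rw [h3]
      omega
    rw [h2, h1, hg j (by omega), add_assoc, ← mul_add]
    congr 2
    exact sum_Ico_consecutive _ (by
      rcases Nat.eq_or_lt_of_le hij' with h4 | h4
      · rw [h4]
      · exact (lt_of_blocks ha i j h4 (by omega)).le) (ha j (by omega)).le

/-- The weights control all chains. -/
theorem good_of {N : ℕ} {P : List ℕ → Fin N → ℝ[X]} {B : ℕ} {ε : ℝ} {K k : ℕ} {w a F : ℕ → ℕ}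
    (hε : 0 < ε) (hP0 : ∀ l m, (P l m).coeff 0 = 0) (hs : ∀ i < K, Step P B (ε / (K + 1)) K w i)
    (ha : ∀ i j, i < j → j ≤ k → a i < a j) (hak : a k ≤ K)
    (hF : ∀ i j, i ≤ j → j ≤ k → F j = F i + B * (∑ t ∈ Ico (a i) (a j), w t)) :
    Good P ε k F := by
  intro l s t hl ht m
  have hl1 : (l ++ [s]).Pairwise (· < ·) := by
    refine hl.sublist ?_
    exact List.Sublist.append_left (List.Sublist.cons_cons s (List.nil_sublist _)) l
  have hst : s < t := by
    have h1 := (List.pairwise_append.1 hl).2.1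
    exact (List.pairwise_cons.1 h1).1 t (by simp)
  have hle : ∀ y ∈ l ++ [s], y ≤ k := by
    intro y hy
    rw [List.mem_append, List.mem_singleton] at hy
    rcases hy with hy | hy
    · have := (List.pairwise_append.1 hl).2.2 y hy t (by simp)
      omega
    · omega
  have hd : diffs F (l ++ [s]) = diffs (fun a => B * W w a) ((l ++ [s]).map a) := by
    refine diffs_map (k := k) ?_ hl1 hle
    intro i j hij hj
    show F j - F i = B * W w (a j) - B * W w (a i)
    rw [hF i j hij.le hj, ← block_sum (w := w) (ha i j hij hj).le, mul_add]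
    omega
  have hmap : ((l.map a) ++ [a s]).Pairwise (· < ·) := by
    have h1 : ((l ++ [s]).map a).Pairwise (· < ·) := by
      rw [List.pairwise_map]
      refine List.Pairwise.imp_of_mem ?_ hl1
      intro x y hx hy hxy
      exact ha x y hxy (hle y hy)
    simpa using h1
  have hat : a t ≤ K := by
    rcases Nat.eq_or_lt_of_le ht with h4 | h4
    · rw [h4]
      exact hak
    · exact ((ha t k h4 le_rfl).trans_le hak).le
  obtain ⟨u, hu⟩ := chain hP0 hs hmap m (a t) (ha s t hst ht).le hat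
  refine ⟨u, ?_⟩
  have he : ((F t : ℝ) - F s) = (B : ℝ) * ((W w (a t) : ℝ) - W w (a s)) := by
    rw [hF s t hst.le ht, ← block_sum (w := w) (ha s t hst ht).le]
    push_cast
    ring
  rw [hd, he, List.map_append, List.map_singleton]
  refine lt_of_le_of_lt hu ?_
  have hK1 : ((a t - a s : ℕ) : ℝ) ≤ K := by
    exact_mod_cast (Nat.sub_le _ _).trans hat
  have hKp : (0 : ℝ) < (K : ℝ) + 1 := by positivity
  calc ((a t - a s : ℕ) : ℝ) * (ε / (K + 1)) ≤ K * (ε / (K + 1)) :=
        mul_le_mul_of_nonneg_right hK1 (by positivity)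
    _ < (K + 1) * (ε / (K + 1)) := mul_lt_mul_of_pos_right (by linarith) (by positivity)
    _ = ε := by field_simp

theorem refl_sum (w : ℕ → ℕ) (K a b : ℕ) (h : b ≤ K) :
    ∑ t ∈ Ico a b, w (K - 1 - t) = ∑ t ∈ Ico (K - b) (K - a), w t := by
  refine Finset.sum_bij' (fun s _ => K - 1 - s) (fun s _ => K - 1 - s) ?_ ?_ ?_ ?_ ?_
  · intro s hs
    rw [Finset.mem_Ico] at hs ⊢
    omega
  · intro s hs
    rw [Finset.mem_Ico] at hs ⊢
    omega
  · intro s hs
    rw [Finset.mem_Ico] at hs
    omega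
  · intro s hs
    rw [Finset.mem_Ico] at hs
    omega
  · intro s _
    rfl

/-- **Adaptive polynomial conditions.** -/
theorem adaptive (k N D : ℕ) (ε : ℝ) (hε : 0 < ε) : ∃ c C : ℝ, 0 < c ∧ 0 < C ∧ ∀ᶠ x : ℝ in atTop,
    ∀ H : ℝ, 1 ≤ H → H ≤ c * ff x → ∀ P : List ℕ → Fin N → ℝ[X],
    (∀ l m, (P l m).natDegree ≤ D) → (∀ l m, (P l m).coeff 0 = 0) →
      x ^ (7 / 8 : ℝ) ≤ (Set.ncard {n : ℕ | Cluster c C x H k n ∧ Good P ε k (pr n)} : ℝ) ∧
      x ^ (7 / 8 : ℝ) ≤ (Set.ncard {n : ℕ | Cluster c C x H k n ∧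
        Good P ε k (fun i => pr n k - pr n (k - i))} : ℝ) := by
  obtain ⟨K, hK⟩ := engineB k
  obtain ⟨C, hC⟩ := exists_weights N D K (ε / (K + 1)) (by positivity)
  obtain ⟨c, D', hc, hD', hx⟩ := hK C
  refine ⟨c, D', hc, hD', ?_⟩
  filter_upwards [hx] with x hxx H hH hHc P hP hP0
  obtain ⟨B, hB, hxB⟩ := hxx H hH hHc
  obtain ⟨w, hw, hs⟩ := hC P hP hP0 B
  constructor
  · refine hxB w hw _ ?_
    intro n a ha hak hg
    exact good_of hε hP0 hs (lt_of_blocks ha) hak.le (pr_sub ha hg)
  · refine hxB (fun s => w (K - 1 - s)) (fun i hi => hw _ (by omega)) _ ?_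
    intro n a ha hak hg
    have hlt := lt_of_blocks ha
    have hle : ∀ i j, i ≤ j → j ≤ k → a i ≤ a j := by
      intro i j hij hj
      rcases Nat.eq_or_lt_of_le hij with h4 | h4
      · rw [h4]
      · exact (hlt i j h4 hj).le
    have hsub := pr_sub ha hg
    refine good_of (a := fun i => K - a (k - i)) hε hP0 hs ?_ (Nat.sub_le _ _) ?_
    · intro i j hij hj
      show K - a (k - i) < K - a (k - j)
      have h1 := hlt (k - j) (k - i) (by omega) (by omega)
      have h2 := hle (k - i) k (by omega) le_rfl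
      omega
    · intro i j hij hj
      show pr n k - pr n (k - j) = pr n k - pr n (k - i) +
        B * ∑ t ∈ Ico (K - a (k - i)) (K - a (k - j)), w t
      have h1 := hsub (k - j) (k - i) (by omega) (by omega)
      have h2 := hsub (k - i) k (by omega) le_rfl
      have h3 := hle (k - i) k (by omega) le_rfl
      have h4 := refl_sum w K (a (k - j)) (a (k - i)) (by omega)
      rw [← h4]
      omega

end Pool.Agent.U437.AP
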