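import Pool.Agent.U437.AP.Approx

/-! Bounded weights whose block sums satisfy adaptively chosen polynomial conditions. -/

set_option autoImplicit false

namespace Pool.Agent.U437.AP

open Finset Polynomial

/-- the differences of the consecutive values of `F` at the members of a list -/
def diffs (F : ℕ → ℕ) : List ℕ → List ℕ
  | [] => []
  | [_] => []
  | a :: b :: l => (F b - F a) :: diffs F (b :: l)

theorem diffs_congr {F G : ℕ → ℕ} : ∀ {l : List ℕ}, (∀ a ∈ l, F a = G a) → diffs F l = diffs G l
  | [], _ => rfl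
  | [_], _ => rfl
  | a :: b :: l, h => by
    rw [diffs, diffs, h a (by simp), h b (by simp),
      diffs_congr (l := b :: l) fun x hx => h x (List.mem_cons_of_mem _ hx)]

theorem diffs_map {F G : ℕ → ℕ} {a : ℕ → ℕ} {k : ℕ}
    (h : ∀ i j, i < j → j ≤ k → F j - F i = G (a j) - G (a i)) :
    ∀ {l : List ℕ}, l.Pairwise (· < ·) → (∀ x ∈ l, x ≤ k) → diffs F l = diffs G (l.map a)
  | [], _, _ => rfl
  | [_], _, _ => rfl
  | i :: j :: l, hl, hk => by
    rw [List.map_cons, List.map_cons, diffs, diffs, ← List.map_cons,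
      diffs_map h (l := j :: l) (List.Pairwise.of_cons hl) fun x hx => hk x (List.mem_cons_of_mem _ hx),
      h i j (List.rel_of_pairwise_cons hl (by simp)) (hk j (by simp))]

/-- the sum of the first `i` weights -/
def W (w : ℕ → ℕ) (i : ℕ) : ℕ := ∑ j ∈ range i, w j

theorem W_congr {w w' : ℕ → ℕ} {i : ℕ} (h : ∀ j < i, w j = w' j) : W w i = W w' i :=
  sum_congr rfl fun j hj => h j (mem_range.1 hj)

/-- The step from `i` to `i + 1` changes the values of all relevant polynomials by nearly integral
amounts. -/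
def Step {N : ℕ} (P : List ℕ → Fin N → ℝ[X]) (B : ℕ) (η : ℝ) (K : ℕ) (w : ℕ → ℕ) (i : ℕ) : Prop :=
  ∀ (l : List ℕ) (s : ℕ), (l ++ [s]) ∈ (List.range (K + 1)).sublists →
    (∀ a ∈ l ++ [s], a ≤ i) → ∀ m : Fin N, ∃ u : ℤ,
    |(P (diffs (fun a => B * W w a) (l ++ [s])) m).eval ((B : ℝ) * ((W w (i + 1) : ℝ) - W w s)) -
     (P (diffs (fun a => B * W w a) (l ++ [s])) m).eval ((B : ℝ) * ((W w i : ℝ) - W w s)) - u| < η

theorem Step.congr {N : ℕ} {P : List ℕ → Fin N → ℝ[X]} {B : ℕ} {η : ℝ} {K : ℕ} {w w' : ℕ → ℕ}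
    {i : ℕ} (h : ∀ j ≤ i, w j = w' j) (hs : Step P B η K w i) : Step P B η K w' i := by
  intro l s hl ha m
  obtain ⟨u, hu⟩ := hs l s hl ha m
  refine ⟨u, ?_⟩
  have h1 : ∀ a ≤ i + 1, W w a = W w' a := fun a ha => W_congr fun j hj => h j (by omega)
  have hsi : s ≤ i := ha s (by simp)
  have h2 : diffs (fun a => B * W w a) (l ++ [s]) = diffs (fun a => B * W w' a) (l ++ [s]) :=
    diffs_congr fun a hal => by
      show B * W w a = B * W w' a
      rw [h1 a (by have := ha a hal; omega)]
  rw [← h2, ← h1 (i + 1) le_rfl, ← h1 i (by omega), ← h1 s (by omega)]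
  exact hu

/-- The polynomial change caused by the next weight. -/
noncomputable def inc (R : ℝ[X]) (b z : ℝ) : ℝ[X] :=
  R.comp (Polynomial.C b * X + Polynomial.C z) - Polynomial.C (R.eval z)

theorem inc_eval (R : ℝ[X]) (b z y : ℝ) : (inc R b z).eval y = R.eval (b * y + z) - R.eval z := by
  simp [inc]

theorem inc_deg (R : ℝ[X]) (b z : ℝ) : (inc R b z).natDegree ≤ R.natDegree := by
  unfold inc
  refine (natDegree_sub_le _ _).trans (max_le ?_ (by simp))
  refine natDegree_comp_le.trans ((Nat.mul_le_mul_left _ ?_).trans (Nat.mul_one _).le)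
  exact natDegree_linear_le

theorem inc_zero (R : ℝ[X]) (b z : ℝ) : (inc R b z).coeff 0 = 0 := by
  rw [coeff_zero_eq_eval_zero, inc_eval]
  simp

/-- **Bounded weights.** -/
theorem exists_weights (N D K : ℕ) (η : ℝ) (hη : 0 < η) : ∃ C : ℕ,
    ∀ P : List ℕ → Fin N → ℝ[X], (∀ l m, (P l m).natDegree ≤ D) → (∀ l m, (P l m).coeff 0 = 0) →
    ∀ B : ℕ, ∃ w : ℕ → ℕ, (∀ i < K, 0 < w i ∧ w i ≤ C) ∧ ∀ i < K, Step P B η K w i := by
  obtain ⟨C, hC⟩ := approxP ((List.range (K + 1)).sublists.length * N) D η hη
  refine ⟨C, fun P hP _ B => ?_⟩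
  have key : ∀ t : ℕ, ∃ w : ℕ → ℕ, (∀ i < t, 0 < w i ∧ w i ≤ C) ∧ ∀ i < t, Step P B η K w i := by
    intro t
    induction t with
    | zero => exact ⟨fun _ => 0, fun i hi => absurd hi (Nat.not_lt_zero i),
        fun i hi => absurd hi (Nat.not_lt_zero i)⟩
    | succ t ih =>
      obtain ⟨w, hw, hs⟩ := ih
      obtain ⟨y, hy, hyC, h⟩ := hC (fun z =>
        inc (P (diffs (fun a => B * W w a) ((List.range (K + 1)).sublists.get
          (finProdFinEquiv.symm z).1)) (finProdFinEquiv.symm z).2) B
          ((B : ℝ) * ((W w t : ℝ) - W w (((List.range (K + 1)).sublists.get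
          (finProdFinEquiv.symm z).1).getLastD 0)))) (fun z => (inc_deg _ _ _).trans (hP _ _))
        (fun z => inc_zero _ _ _)
      have hw' : ∀ j < t, w j = Function.update w t y j := fun j hj => by
        rw [Function.update_of_ne (by omega)]
      refine ⟨Function.update w t y, fun i hi => ?_, fun i hi => ?_⟩
      · rcases Nat.lt_succ_iff_lt_or_eq.1 hi with h1 | h1
        · rw [← hw' i h1]
          exact hw i h1
        · rw [h1, Function.update_self]
          exact ⟨hy, hyC⟩
      · rcases Nat.lt_succ_iff_lt_or_eq.1 hi with h1 | h1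
        · exact (hs i h1).congr fun j hj => hw' j (by omega)
        · subst h1
          intro l s hl ha m
          obtain ⟨j, hj⟩ := List.mem_iff_get.1 hl
          obtain ⟨u, hu⟩ := h (finProdFinEquiv (j, m))
          refine ⟨u, ?_⟩
          simp only [Equiv.symm_apply_apply, hj, inc_eval] at hu
          have h2 : ((l ++ [s]).getLastD 0) = s := by simp
          rw [h2] at hu
          have h3 : ∀ a ≤ i, W (Function.update w i y) a = W w a := fun a ha =>
            (W_congr fun j hj => hw' j (by omega)).symm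
          have h4 : W (Function.update w i y) (i + 1) = W w i + y := by
            show ∑ j ∈ range (i + 1), Function.update w i y j = _
            rw [sum_range_succ, Function.update_self]
            congr 1
            exact h3 i le_rfl
          have h5 : diffs (fun a => B * W (Function.update w i y) a) (l ++ [s]) =
              diffs (fun a => B * W w a) (l ++ [s]) := diffs_congr fun a hal => by
            show B * W _ a = B * W _ a
            rw [h3 a (ha a hal)]
          rw [h5, h4, h3 i le_rfl, h3 s (ha s (by simp))]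
          have h6 : (B : ℝ) * (((W w i + y : ℕ) : ℝ) - W w s) =
              B * (y : ℝ) + B * ((W w i : ℝ) - W w s) := by
            push_cast
            ring
          rw [h6]
          exact hu
  exact key K

theorem mem_sublists_range {l : List ℕ} {K : ℕ} (hl : l.Pairwise (· < ·)) (h : ∀ a ∈ l, a ≤ K) :
    l ∈ (List.range (K + 1)).sublists := by
  rw [List.mem_sublists]
  have h1 : l.Nodup := hl.imp fun hab => hab.ne
  have h2 : List.Subperm l (List.range (K + 1)) := h1.subperm fun a ha => by
    rw [List.mem_range]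
    exact Nat.lt_succ_of_le (h a ha)
  exact List.sublist_of_subperm_of_pairwise h2 hl List.pairwise_lt_range

/-- **Telescoping.** -/
theorem chain {N : ℕ} {P : List ℕ → Fin N → ℝ[X]} {B : ℕ} {η : ℝ} {K : ℕ} {w : ℕ → ℕ}
    (hP : ∀ l m, (P l m).coeff 0 = 0) (hs : ∀ i < K, Step P B η K w i)
    {l : List ℕ} {s : ℕ} (hl : (l ++ [s]).Pairwise (· < ·)) (m : Fin N) :
    ∀ t, s ≤ t → t ≤ K → ∃ u : ℤ,
    |(P (diffs (fun a => B * W w a) (l ++ [s])) m).eval ((B : ℝ) * ((W w t : ℝ) - W w s)) - u| ≤
      ((t - s : ℕ) : ℝ) * η := by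
  intro t hst
  induction t, hst using Nat.le_induction with
  | base =>
    intro _
    refine ⟨0, ?_⟩
    rw [sub_self, mul_zero, ← coeff_zero_eq_eval_zero, hP]
    simp
  | succ t hst ih =>
    intro htK
    obtain ⟨u, hu⟩ := ih (by omega)
    have hle : ∀ a ∈ l ++ [s], a ≤ s := by
      intro a ha
      rw [List.mem_append, List.mem_singleton] at ha
      rcases ha with ha | ha
      · exact ((List.pairwise_append.1 hl).2.2 a ha s (by simp)).le
      · exact ha.le
    obtain ⟨v, hv⟩ := hs t (by omega) l s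
      (mem_sublists_range hl fun a ha => (hle a ha).trans (by omega))
      (fun a ha => (hle a ha).trans hst) m
    refine ⟨u + v, ?_⟩
    have h1 : ((t + 1 - s : ℕ) : ℝ) = ((t - s : ℕ) : ℝ) + 1 := by
      rw [Nat.succ_sub hst]
      push_cast
      ring
    rw [h1, add_mul, one_mul]
    refine le_trans ?_ (add_le_add hu hv.le)
    refine le_trans (le_of_eq ?_) (abs_add_le _ _)
    congr 1
    push_cast
    ring

end Pool.Agent.U437.AP
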